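import Pool.Agent.Helper29.RO.Hall

/-!
# P. Hall's nilpotency criterion, virtual form, general normal subgroup
-/

namespace Pool.Agent.Helper29.AN

open Subgroup
open Pool.Agent.Helper29.RO

/-- General form: `M` normal and nilpotent, `P/M` nilpotent. -/
theorem not_vn_quot_gen {H : Type*} [Group H] (M : Subgroup H) [hMn : M.Normal]
    (hn : Group.IsNilpotent M) (hq : Group.IsNilpotent (H ⧸ M))
    (h : ¬ ∃ K : Subgroup H, K.FiniteIndex ∧ Group.IsNilpotent K) :
    ¬ ∃ K : Subgroup (H ⧸ ⁅M, M⁆), K.FiniteIndex ∧ Group.IsNilpotent K := by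
  rintro ⟨K, hKf, hKn⟩
  apply h
  obtain ⟨c, hc⟩ := (isNilpotent_iff_lowerCentralSeries M).1 hn
  rw [← it_eq_lcs] at hc
  obtain ⟨a, ha⟩ := (isNilpotent_iff_lowerCentralSeries K).1 hKn
  rw [← it_eq_lcs] at ha
  obtain ⟨b, hb⟩ := Subgroup.nilpotent_iff_lowerCentralSeries.1 hq
  have hb' : it (⊤ : Subgroup H) ⊤ b ≤ M := by
    rw [← QuotientGroup.ker_mk' M, ← Subgroup.map_eq_bot_iff, it_eq_lcs,
      map_lowerCentralSeries, eq_bot_iff, ← hb]
    exact lowerCentralSeries_mono b le_top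
  -- `L` the preimage of the core
  obtain ⟨K0, hK0⟩ : ∃ K0, K0 = K.normalCore := ⟨_, rfl⟩
  have hK0n : K0.Normal := by rw [hK0]; infer_instance
  have hK0f : K0.FiniteIndex := by rw [hK0]; infer_instance
  have hK0K : K0 ≤ K := by rw [hK0]; exact K.normalCore_le
  obtain ⟨L, hL⟩ : ∃ L, L = K0.comap (QuotientGroup.mk' ⁅M, M⁆) := ⟨_, rfl⟩
  have hLn : L.Normal := by rw [hL]; infer_instance
  have hLf : L.FiniteIndex := by
    refine ⟨?_⟩
    rw [hL, Subgroup.index_comap_of_surjective _ (QuotientGroup.mk'_surjective _)]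
    exact hK0f.index_ne_zero
  have hLa : it L L a ≤ ⁅M, M⁆ := by
    rw [← QuotientGroup.ker_mk' ⁅M, M⁆, ← Subgroup.map_eq_bot_iff, it_eq_lcs,
      map_lowerCentralSeries, eq_bot_iff, ← it_eq_lcs]
    have h1 : L.map (QuotientGroup.mk' ⁅M, M⁆) ≤ K := by
      rw [hL]
      exact (Subgroup.map_comap_le _ _).trans hK0K
    exact (it_mono h1 h1 a).trans ha.le
  refine ⟨L ⊔ M, Subgroup.finiteIndex_of_le (le_sup_left : L ≤ L ⊔ M), ?_⟩
  rw [isNilpotent_iff_lowerCentralSeries]
  -- `[M, R, …, R] ≤ [M, L, …, L] M'`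
  have h1 : ∀ k, it (L ⊔ M) M k ≤ it L M k ⊔ ⁅M, M⁆ := by
    intro k
    induction k with
    | zero => exact le_sup_left
    | succ k ih =>
      have hk := it_normal L M k
      have hk1 := it_normal L M (k + 1)
      refine (commutator_mono ih le_rfl).trans ?_
      apply sup_comm_le
      · rw [commutator_comm]
        apply sup_comm_le
        · rw [commutator_comm]
          exact le_sup_left
        · rw [commutator_comm]
          exact (commutator_mono (it_le L M k) le_rfl).trans le_sup_right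
      · exact (commutator_le_left _ _).trans le_sup_right
  have h2 : it L M (a + 1) ≤ ⁅M, M⁆ := by
    rw [it_succ']
    exact (it_mono le_rfl (commutator_le_right _ _) a).trans hLa
  have h3 : it (L ⊔ M) M (a + 1) ≤ ⁅M, M⁆ := (h1 (a + 1)).trans (sup_le h2 le_rfl)
  have h4 : it (L ⊔ M) (L ⊔ M) b ≤ M := (it_mono le_top le_top b).trans hb'
  obtain ⟨e, he⟩ := hall (L ⊔ M) M (a + 1) c b h3 h4 hc
  exact ⟨e, by rw [← it_eq_lcs]; exact he⟩

end Pool.Agent.Helper29.AN
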