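import Mathlib

/-!
# Invariance of a complement (nilpotent groups)

Let a nilpotent group `L` act on `X = B ⊕ C`, `B` invariant, `C` invariant under one element `s`, and
suppose that `s` has no common eigenvalue on `B` and on `C`.  Then `C` is invariant.
-/

namespace Pool.Agent.Helper29.AN

open Polynomial

variable {K X L : Type*} [Field K] [AddCommGroup X] [Module K X]

theorem intertwine (C : Submodule K X) (S T φ : Module.End K X) (hS : ∀ x ∈ C, S x ∈ C)
    (h : ∀ x ∈ C, φ (S x) = T (φ x)) (p : K[X]) :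
    ∀ x ∈ C, φ (aeval S p x) = aeval T p (φ x) := by
  have hpow : ∀ n : ℕ, ∀ x ∈ C, (S ^ n) x ∈ C ∧ φ ((S ^ n) x) = (T ^ n) (φ x) := by
    intro n
    induction n with
    | zero => intro x hx; simpa using hx
    | succ n ih =>
      intro x hx
      obtain ⟨h1, h2⟩ := ih x hx
      rw [pow_succ', pow_succ', Module.End.mul_apply, Module.End.mul_apply]
      exact ⟨hS _ h1, by rw [h _ h1, h2]⟩
  intro x hx
  induction p using Polynomial.induction_on' with
  | add p q hp hq => rw [map_add, map_add, LinearMap.add_apply, LinearMap.add_apply, map_add, hp, hq]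
  | monomial n a =>
    rw [aeval_monomial, aeval_monomial, Module.End.mul_apply, Module.End.mul_apply,
      Module.algebraMap_end_apply, Module.algebraMap_end_apply, map_smul, (hpow n x hx).2]

/-- INV -/
theorem inv_compl [Group L] [Group.IsNilpotent L] (ρ : L →* Module.End K X) (s : L)
    (B C : Submodule K X) (hBC : IsCompl B C) (hB : ∀ g, ∀ x ∈ B, ρ g x ∈ B)
    (hC : ∀ x ∈ C, ρ s x ∈ C) (p : K[X]) (hpC : ∀ x ∈ C, aeval (ρ s) p x = 0)
    (hpB : ∀ x ∈ B, aeval (ρ s) p x = 0 → x = 0) : ∀ g, ∀ x ∈ C, ρ g x ∈ C := by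
  -- the projection on `B` along `C`
  obtain ⟨π, hπB, hπid, hπC⟩ : ∃ π : Module.End K X, (∀ x, π x ∈ B) ∧ (∀ x ∈ B, π x = x) ∧
      (∀ x, π x = 0 ↔ x ∈ C) := by
    refine ⟨B.subtype.comp (Submodule.projectionOnto B C hBC), ?_, ?_, ?_⟩
    · intro x; exact Subtype.coe_prop _
    · intro x hx
      have := Submodule.projectionOnto_apply_left hBC ⟨x, hx⟩
      rw [LinearMap.comp_apply, this]; rfl
    · intro x
      rw [LinearMap.comp_apply, Submodule.subtype_apply, Submodule.coe_eq_zero,
        Submodule.projectionOnto_apply_eq_zero_iff]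
  have hsub : ∀ x, x - π x ∈ C := by
    intro x
    rw [← hπC, map_sub, hπid _ (hπB x), sub_self]
  have key : ∀ i : ℕ, ∀ g ∈ Subgroup.upperCentralSeries L i, ∀ x ∈ C, ρ g x ∈ C := by
    intro i
    induction i with
    | zero =>
      intro g hg x hx
      rw [Subgroup.upperCentralSeries_zero, Subgroup.mem_bot] at hg
      rw [hg, map_one]
      exact hx
    | succ i ih =>
      intro g hg x hx
      rw [Subgroup.mem_upperCentralSeries_succ_iff] at hg
      have hz := hg s
      obtain ⟨z, hzdef⟩ : ∃ z, z = g * s * g⁻¹ * s⁻¹ := ⟨_, rfl⟩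
      rw [commutatorElement_def, ← hzdef] at hz
      have hzs : z * s = g * s * g⁻¹ := by rw [hzdef]; group
      have hS' : ∀ y ∈ C, ρ (z * s) y ∈ C := by
        intro y hy
        rw [map_mul, Module.End.mul_apply]
        exact ih z hz _ (hC y hy)
      have hcomm : ∀ y, π (ρ (z * s) y) = ρ (z * s) (π y) := by
        intro y
        have e : y = π y + (y - π y) := by abel
        have h1 : π (ρ (z * s) (y - π y)) = 0 := (hπC _).2 (hS' _ (hsub y))
        have h2 : π (ρ (z * s) (π y)) = ρ (z * s) (π y) := hπid _ (hB _ _ (hπB y))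
        calc π (ρ (z * s) y) = π (ρ (z * s) (π y + (y - π y))) := by rw [← e]
          _ = ρ (z * s) (π y) := by rw [map_add, map_add, h1, h2, add_zero]
      have h3 : ∀ y ∈ C, (π * ρ g) (ρ s y) = ρ (z * s) ((π * ρ g) y) := by
        intro y _
        rw [Module.End.mul_apply, Module.End.mul_apply, ← hcomm, ← Module.End.mul_apply (ρ g),
          ← map_mul, ← Module.End.mul_apply (ρ (z * s)), ← map_mul]
        congr 3
        rw [hzs]; group
      have h4 := intertwine C (ρ s) (ρ (z * s)) (π * ρ g) hC h3 p x hx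
      rw [hpC x hx, map_zero, hzs] at h4
      -- conjugate
      have h5 : ∀ y, aeval (ρ s) p (ρ g⁻¹ y) = ρ g⁻¹ (aeval (ρ (g * s * g⁻¹)) p y) := by
        intro y
        refine (intertwine ⊤ (ρ (g * s * g⁻¹)) (ρ s) (ρ g⁻¹) (fun _ _ => trivial) ?_ p y
          trivial).symm
        intro v _
        rw [← Module.End.mul_apply, ← map_mul, ← Module.End.mul_apply (ρ s), ← map_mul]
        congr 2
        group
      have h6 : ρ g⁻¹ ((π * ρ g) x) = 0 := by
        apply hpB
        · exact hB _ _ (hπB _)
        · rw [h5, ← h4, map_zero]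
      have h7 : (π * ρ g) x = 0 := by
        have : ρ g (ρ g⁻¹ ((π * ρ g) x)) = (π * ρ g) x := by
          rw [← Module.End.mul_apply, ← map_mul, mul_inv_cancel, map_one, Module.End.one_apply]
        rw [← this, h6, map_zero]
      exact (hπC _).1 h7
  intro g
  obtain ⟨n, hn⟩ := (Group.isNilpotent_iff L).1 inferInstance
  exact key n g (by rw [hn]; exact Subgroup.mem_top g)

end Pool.Agent.Helper29.AN
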