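import Mathlib

/-!
# Irreducible representations of nilpotent groups

Over an algebraically closed field some power `g ^ m` (`m` independent of `g`) acts as a scalar.
-/

namespace Pool.Agent.Helper29.AN

open scoped commutatorElement

theorem comm_pow_aux {G : Type*} [Group G] (x h : G) (hc : ⁅x, h⁆ ∈ Subgroup.center G) (n : ℕ) :
    ⁅x ^ n, h⁆ = ⁅x, h⁆ ^ n := by
  have hxh : x * h = ⁅x, h⁆ * h * x := by rw [commutatorElement_def]; group
  have key : x ^ n * h = ⁅x, h⁆ ^ n * h * x ^ n := by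
    induction n with
    | zero => simp
    | succ n ih =>
      have hc2 : ∀ y : G, y * ⁅x, h⁆ = ⁅x, h⁆ * y := fun y => Subgroup.mem_center_iff.1 hc y
      have hc3 : ∀ y : G, y * ⁅x, h⁆ ^ n = ⁅x, h⁆ ^ n * y :=
        fun y => (Commute.pow_right (show Commute y ⁅x, h⁆ from hc2 y) n)
      calc x ^ (n + 1) * h = x * (x ^ n * h) := by rw [pow_succ']; group
        _ = x * ⁅x, h⁆ ^ n * h * x ^ n := by rw [ih]; group
        _ = ⁅x, h⁆ ^ n * (x * h) * x ^ n := by rw [hc3 x]; group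
        _ = ⁅x, h⁆ ^ n * (⁅x, h⁆ * h * x) * x ^ n := by rw [← hxh]
        _ = ⁅x, h⁆ ^ (n + 1) * h * x ^ (n + 1) := by rw [pow_succ, pow_succ' x]; group
  rw [commutatorElement_def, key]
  group

/-- A nilpotent group whose centre has finite exponent has finite exponent. -/
theorem exponent_of_center {G : Type*} [Group G] [Group.IsNilpotent G] :
    ∀ d : ℕ, 0 < d → (∀ z ∈ Subgroup.center G, z ^ d = 1) → ∃ m : ℕ, 0 < m ∧ ∀ g : G, g ^ m = 1 := by
  refine Group.nilpotent_center_quotient_ind (P := fun G _ _ => ∀ d : ℕ, 0 < d →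
    (∀ z ∈ Subgroup.center G, z ^ d = 1) → ∃ m : ℕ, 0 < m ∧ ∀ g : G, g ^ m = 1) G ?_ ?_
  · intro G _ _ d hd _
    exact ⟨1, one_pos, fun g => Subsingleton.elim _ _⟩
  · intro G _ _ ih d hd hz
    obtain ⟨m, hm, hm'⟩ := ih d hd (by
      intro z hzc
      obtain ⟨x, rfl⟩ := QuotientGroup.mk_surjective z
      rw [← QuotientGroup.mk_pow, QuotientGroup.eq_one_iff, Subgroup.mem_center_iff]
      intro h
      have h1 : ⁅x, h⁆ ∈ Subgroup.center G := by
        have h2 := (Subgroup.mem_center_iff.1 hzc) (h : G ⧸ Subgroup.center G)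
        have h3 : ⁅(x : G ⧸ Subgroup.center G), (h : G ⧸ Subgroup.center G)⁆ = 1 :=
          commutatorElement_eq_one_iff_mul_comm.2 h2.symm
        exact (QuotientGroup.eq_one_iff (N := Subgroup.center G) ⁅x, h⁆).1 h3
      have h4 := comm_pow_aux x h h1 d
      rw [hz _ h1] at h4
      exact (commutatorElement_eq_one_iff_mul_comm.1 h4).symm)
    refine ⟨m * d, Nat.mul_pos hm hd, fun g => ?_⟩
    rw [pow_mul]
    apply hz
    have := hm' (g : G ⧸ Subgroup.center G)
    rw [← QuotientGroup.mk_pow, QuotientGroup.eq_one_iff] at this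
    exact this

variable {K W L : Type*} [Field K] [IsAlgClosed K] [AddCommGroup W] [Module K W]
  [FiniteDimensional K W] [Nontrivial W]

theorem schur [Group L] (ρ : L →* Module.End K W)
    (hirr : ∀ U : Submodule K W, (∀ g, ∀ x ∈ U, ρ g x ∈ U) → U = ⊥ ∨ U = ⊤)
    (f : Module.End K W) (hf : ∀ g, f * ρ g = ρ g * f) : ∃ α : K, f = α • (1 : Module.End K W) := by
  obtain ⟨μ, hμ⟩ := Module.End.exists_eigenvalue f
  refine ⟨μ, ?_⟩
  have h1 : ∀ g, ∀ x ∈ Module.End.eigenspace f μ, ρ g x ∈ Module.End.eigenspace f μ := by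
    intro g x hx
    rw [Module.End.mem_eigenspace_iff] at hx ⊢
    rw [← Module.End.mul_apply, hf, Module.End.mul_apply, hx, map_smul]
  rcases hirr _ h1 with h2 | h2
  · exact absurd h2 hμ
  · ext x
    have : x ∈ Module.End.eigenspace f μ := by rw [h2]; trivial
    rw [Module.End.mem_eigenspace_iff] at this
    rw [this]; rfl

/-- IRR, first part -/
theorem exists_pow_scalar [Group L] [Group.IsNilpotent L] (ρ : L →* Module.End K W)
    (hirr : ∀ U : Submodule K W, (∀ g, ∀ x ∈ U, ρ g x ∈ U) → U = ⊥ ∨ U = ⊤) :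
    ∃ m : ℕ, 0 < m ∧ ∀ g, ∃ α : K, ρ g ^ m = α • (1 : Module.End K W) := by
  -- the elements which act as scalars
  obtain ⟨Z, hZ⟩ : ∃ Z : Subgroup L, ∀ g, g ∈ Z ↔ ∃ α : K, ρ g = α • (1 : Module.End K W) := by
    refine ⟨{ carrier := {g | ∃ α : K, ρ g = α • (1 : Module.End K W)}
              mul_mem' := ?_, one_mem' := ⟨1, by rw [map_one, one_smul]⟩, inv_mem' := ?_ },
      fun g => Iff.rfl⟩
    · rintro a b ⟨α, ha⟩ ⟨β, hb⟩
      exact ⟨α * β, by rw [map_mul, ha, hb, smul_mul_smul_comm, one_mul]⟩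
    · rintro a ⟨α, ha⟩
      have h1 : ρ a * ρ a⁻¹ = 1 := by rw [← map_mul, mul_inv_cancel, map_one]
      rw [ha, smul_mul_assoc, one_mul] at h1
      have hα : α ≠ 0 := by
        rintro rfl
        rw [zero_smul] at h1
        exact zero_ne_one h1
      refine ⟨α⁻¹, ?_⟩
      rw [← h1, smul_smul, inv_mul_cancel₀ hα, one_smul]
  have hZn : Z.Normal := by
    refine ⟨fun n hn g => ?_⟩
    rw [hZ] at hn ⊢
    obtain ⟨α, hα⟩ := hn
    refine ⟨α, ?_⟩
    rw [map_mul, map_mul, hα, mul_smul_comm, mul_one, smul_mul_assoc, ← map_mul, mul_inv_cancel,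
      map_one]
  have hdpos : 0 < Module.finrank K W := Module.finrank_pos
  obtain ⟨m, hm, hm'⟩ := exponent_of_center (G := L ⧸ Z) (Module.finrank K W) hdpos (by
    intro z hzc
    obtain ⟨x, rfl⟩ := QuotientGroup.mk_surjective z
    rw [← QuotientGroup.mk_pow, QuotientGroup.eq_one_iff, hZ, map_pow]
    apply schur ρ hirr
    intro g
    have h2 := (Subgroup.mem_center_iff.1 hzc) (g : L ⧸ Z)
    have h3 : ⁅(x : L ⧸ Z), (g : L ⧸ Z)⁆ = 1 := commutatorElement_eq_one_iff_mul_comm.2 h2.symm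
    have h4 : ⁅x, g⁆ ∈ Z := (QuotientGroup.eq_one_iff (N := Z) ⁅x, g⁆).1 h3
    obtain ⟨α, hα⟩ := (hZ _).1 h4
    have h5 : ρ x * ρ g = α • (ρ g * ρ x) := by
      have e : x * g = ⁅x, g⁆ * (g * x) := by rw [commutatorElement_def]; group
      rw [← map_mul, e, map_mul, hα, smul_mul_assoc, one_mul, map_mul]
    have hdet : α ^ Module.finrank K W = 1 := by
      have h6 := congrArg LinearMap.det h5
      rw [LinearMap.det_smul, map_mul, map_mul, mul_comm (LinearMap.det (ρ g))] at h6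
      have h7 : LinearMap.det (ρ x) * LinearMap.det (ρ g) ≠ 0 := by
        have hu : ∀ y : L, LinearMap.det (ρ y) ≠ 0 := by
          intro y hy
          have : LinearMap.det (ρ y * ρ y⁻¹) = 1 := by
            rw [← map_mul, mul_inv_cancel, map_one, map_one]
          rw [map_mul, hy, zero_mul] at this
          exact zero_ne_one this
        exact mul_ne_zero (hu x) (hu g)
      exact (mul_eq_right₀ h7).1 h6.symm
    have h8 : ∀ n : ℕ, ρ x ^ n * ρ g = α ^ n • (ρ g * ρ x ^ n) := by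
      intro n
      induction n with
      | zero => simp
      | succ n ih =>
        calc ρ x ^ (n + 1) * ρ g = ρ x * (ρ x ^ n * ρ g) := by rw [pow_succ', mul_assoc]
          _ = α ^ n • ((ρ x * ρ g) * ρ x ^ n) := by rw [ih, mul_smul_comm, mul_assoc]
          _ = α ^ (n + 1) • (ρ g * ρ x ^ (n + 1)) := by
            rw [h5, smul_mul_assoc, smul_smul, mul_assoc, ← pow_succ', ← pow_succ]
    rw [h8, hdet, one_smul])
  refine ⟨m, hm, fun g => ?_⟩
  have := hm' (g : L ⧸ Z)
  rw [← QuotientGroup.mk_pow, QuotientGroup.eq_one_iff, hZ, map_pow] at this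
  exact this

/-- the eigenvalue `μ` is a root of unity -/
def Tor (μ : K) : Prop := ∃ k : ℕ, 0 < k ∧ μ ^ k = 1

/-- IRR, second part -/
theorem exists_letter [Group L] [Group.IsNilpotent L] (ρ : L →* Module.End K W)
    (hirr : ∀ U : Submodule K W, (∀ g, ∀ x ∈ U, ρ g x ∈ U) → U = ⊥ ∨ U = ⊤) (T : Set L)
    (hgen : Subgroup.closure T = ⊤) (g : L) (μ : K) (hμ : (ρ g).HasEigenvalue μ)
    (hμt : ¬ Tor μ) : ∃ s ∈ T, ∀ ν : K, (ρ s).HasEigenvalue ν → ¬ Tor ν := by
  obtain ⟨m, hm, hscal⟩ := exists_pow_scalar ρ hirr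
  have hev : ∀ (h : L) (α ν : K), ρ h ^ m = α • (1 : Module.End K W) → (ρ h).HasEigenvalue ν →
      ν ^ m = α := by
    intro h α ν hα hν
    obtain ⟨v, hv⟩ := hν.exists_hasEigenvector
    have h1 : (ρ h ^ m) v = ν ^ m • v := hv.pow_apply m
    rw [hα, LinearMap.smul_apply, Module.End.one_apply] at h1
    exact (smul_left_injective K hv.2 h1).symm
  have hdet : ∀ (h : L) (α : K), ρ h ^ m = α • (1 : Module.End K W) →
      (Tor α ↔ Tor (LinearMap.det (ρ h))) := by
    intro h α hα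
    have h1 : LinearMap.det (ρ h) ^ m = α ^ Module.finrank K W := by
      rw [← map_pow, hα, LinearMap.det_smul, map_one, mul_one]
    have hdpos : 0 < Module.finrank K W := Module.finrank_pos
    constructor
    · rintro ⟨k, hk, hk'⟩
      exact ⟨m * k, Nat.mul_pos hm hk, by rw [pow_mul, h1, ← pow_mul, mul_comm, pow_mul, hk', one_pow]⟩
    · rintro ⟨k, hk, hk'⟩
      exact ⟨Module.finrank K W * k, Nat.mul_pos hdpos hk, by
        rw [pow_mul, ← h1, ← pow_mul, mul_comm, pow_mul, hk', one_pow]⟩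
  by_contra hcon
  push Not at hcon
  have hall : ∀ h ∈ Subgroup.closure T, Tor (LinearMap.det (ρ h)) := by
    intro h hh
    induction hh using Subgroup.closure_induction with
    | mem s hs =>
      obtain ⟨ν, hν, hνt⟩ := hcon s hs
      obtain ⟨α, hα⟩ := hscal s
      rw [← hdet s α hα, ← hev s α ν hα hν]
      obtain ⟨k, hk, hk'⟩ := hνt
      exact ⟨k, hk, by rw [← pow_mul, mul_comm, pow_mul, hk', one_pow]⟩
    | one => exact ⟨1, one_pos, by rw [map_one, map_one, one_pow]⟩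
    | mul a b _ _ ha hb =>
      obtain ⟨k, hk, hk'⟩ := ha
      obtain ⟨l, hl, hl'⟩ := hb
      refine ⟨k * l, Nat.mul_pos hk hl, ?_⟩
      rw [map_mul, map_mul, mul_pow, pow_mul, hk', one_pow, one_mul, mul_comm k, pow_mul, hl',
        one_pow]
    | inv a _ ha =>
      obtain ⟨k, hk, hk'⟩ := ha
      refine ⟨k, hk, ?_⟩
      have h1 : LinearMap.det (ρ a⁻¹) * LinearMap.det (ρ a) = 1 := by
        rw [← map_mul, ← map_mul, inv_mul_cancel, map_one, map_one]
      have h2 : LinearMap.det (ρ a⁻¹) ^ k * LinearMap.det (ρ a) ^ k = 1 := by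
        rw [← mul_pow, h1, one_pow]
      rwa [hk', mul_one] at h2
  obtain ⟨α, hα⟩ := hscal g
  have h1 : Tor α := (hdet g α hα).2 (hall g (by rw [hgen]; exact Subgroup.mem_top g))
  rw [← hev g α μ hα hμ] at h1
  obtain ⟨k, hk, hk'⟩ := h1
  exact hμt ⟨m * k, Nat.mul_pos hm hk, by rw [pow_mul]; exact hk'⟩

end Pool.Agent.Helper29.AN
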