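import Pool.Agent.Helper11.Gap.Path

/-!
# Left-normed commutators of letters

`γ_{c+1}(G)` lies in every normal subgroup that contains the left-normed commutators of weight
`c + 1` of the elements of a generating set.
-/

namespace Pool.Agent.Helper29.AN

open Pointwise
open scoped commutatorElement
open Pool.Agent.Helper11.Gap (Sym mul_mem_pow)

variable {G : Type*} [Group G]

/-- the left-normed commutators of weight `k + 1` of the elements of `T` -/
def LN (T : Set G) : ℕ → Set G
  | 0 => T
  | k + 1 => {y | ∃ x ∈ LN T k, ∃ t ∈ T, y = ⁅x, t⁆}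

theorem lcs_le (T : Set G) (hgen : Subgroup.closure T = ⊤) (k : ℕ) :
    ∀ N : Subgroup G, N.Normal → (∀ x ∈ LN T k, x ∈ N) →
      (⊤ : Subgroup G).lowerCentralSeries k ≤ N := by
  induction k with
  | zero =>
    intro N _ h
    rw [Subgroup.lowerCentralSeries_zero, ← hgen, Subgroup.closure_le]
    exact h
  | succ k ih =>
    intro N hN h
    obtain ⟨Z, hZ⟩ : ∃ Z : Subgroup G,
        Z = (Subgroup.center (G ⧸ N)).comap (QuotientGroup.mk' N) := ⟨_, rfl⟩
    have hZn : Z.Normal := by rw [hZ]; infer_instance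
    have h1 : (⊤ : Subgroup G).lowerCentralSeries k ≤ Z := by
      apply ih Z hZn
      intro x hx
      rw [hZ, Subgroup.mem_comap, Subgroup.mem_center_iff]
      intro g
      obtain ⟨g, rfl⟩ := QuotientGroup.mk_surjective g
      have hg : g ∈ Subgroup.closure T := by rw [hgen]; exact Subgroup.mem_top g
      induction hg using Subgroup.closure_induction with
      | mem t ht =>
        have h2 : ⁅x, t⁆ ∈ N := h _ ⟨x, hx, t, ht, rfl⟩
        have h3 : ⁅(x : G ⧸ N), (t : G ⧸ N)⁆ = 1 := by
          have := (QuotientGroup.eq_one_iff (N := N) ⁅x, t⁆).2 h2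
          exact this
        exact (commutatorElement_eq_one_iff_mul_comm.1 h3).symm
      | one => simp
      | mul a b _ _ ha hb =>
        rw [QuotientGroup.mk_mul, mul_assoc, hb, ← mul_assoc, ha, mul_assoc]
      | inv a _ ha =>
        rw [QuotientGroup.mk_inv]
        have := (Commute.inv_left (show Commute (a : G ⧸ N) (QuotientGroup.mk' N x) from ha))
        exact this
    rw [Subgroup.lowerCentralSeries_succ, Subgroup.commutator_le]
    intro a ha b _
    have h2 := h1 ha
    rw [hZ, Subgroup.mem_comap, Subgroup.mem_center_iff] at h2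
    have h3 := h2 (QuotientGroup.mk b)
    have h4 : ⁅(a : G ⧸ N), (b : G ⧸ N)⁆ = 1 := commutatorElement_eq_one_iff_mul_comm.2 h3.symm
    exact (QuotientGroup.eq_one_iff (N := N) ⁅a, b⁆).1 h4

theorem LN_mem_lcs (T : Set G) (k : ℕ) : ∀ x ∈ LN T k, x ∈ (⊤ : Subgroup G).lowerCentralSeries k := by
  induction k with
  | zero => intro x _; exact Subgroup.mem_top x
  | succ k ih =>
    rintro _ ⟨x, hx, t, _, rfl⟩
    exact Subgroup.commutator_mem_commutator (ih x hx) (Subgroup.mem_top t)

theorem LN_len [DecidableEq G] {T : Finset G} (hT : Sym T) (k : ℕ) :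
    ∀ x ∈ LN (T : Set G) k, x ∈ T ^ (3 * 2 ^ k - 2) := by
  induction k with
  | zero =>
    intro x hx
    have hx' : x ∈ T := hx
    exact hT.mem_one hx'
  | succ k ih =>
    rintro _ ⟨x, hx, t, ht, rfl⟩
    have h1 := ih x hx
    have ht' : t ∈ T := ht
    have h2 := mul_mem_pow (mul_mem_pow (mul_mem_pow h1 (hT.mem_one ht'))
      (hT.inv_mem_pow h1)) (hT.inv_mem_pow (hT.mem_one ht'))
    have e : 3 * 2 ^ k - 2 + 1 + (3 * 2 ^ k - 2) + 1 = 3 * 2 ^ (k + 1) - 2 := by
      have : 1 ≤ 2 ^ k := Nat.one_le_two_pow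
      rw [pow_succ]
      omega
    rw [e] at h2
    exact h2

/-- If `γ_{c+1}(G)` is not in the normal subgroup `N`, some short element of it is not. -/
theorem exists_short [DecidableEq G] {T : Finset G} (hT : Sym T)
    (hgen : Subgroup.closure (T : Set G) = ⊤) (c : ℕ) (N : Subgroup G) [N.Normal]
    (h : ¬ (⊤ : Subgroup G).lowerCentralSeries c ≤ N) :
    ∃ w, w ∈ (⊤ : Subgroup G).lowerCentralSeries c ∧ w ∈ T ^ (3 * 2 ^ c - 2) ∧ w ∉ N := by
  by_contra hcon
  apply h
  apply lcs_le (T : Set G) hgen c N inferInstance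
  intro x hx
  by_contra hxN
  exact hcon ⟨x, LN_mem_lcs _ c x hx, LN_len hT c x hx, hxN⟩

end Pool.Agent.Helper29.AN
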